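import Pool.Agent.H520Z.Sel.SBridge
import Pool.Agent.H520Z.Sel.Interp

set_option autoImplicit false

namespace Pool.Agent.Results.MP_4e5e8a_nt.ASelbergClass

open Pool.Agent.H520Z.Sel

/-- The Lindelof hypothesis fails in the Selberg class, and the convexity exponent `d/4` cannot be
lowered to `(1/4 - ε) d` for large degrees `d`. -/
theorem result : ∀ ε : ℝ, 0 < ε → ∃ d₀ : ℝ, ∀ d : ℝ, d₀ ≤ d →
    ∃ (a : ℕ → ℂ) (F : ℂ → ℂ), Selberg a F d ∧ Differentiable ℂ F ∧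
      ¬ ∃ K : ℝ, ∀ t : ℝ, ‖F (1 / 2 + t * Complex.I)‖ ≤ K * (1 + |t|) ^ ((1 / 4 - ε) * d) := by
  intro ε hε
  obtain ⟨e, he0, he1, he2⟩ : ∃ e : ℝ, 0 < e ∧ e ≤ ε ∧ e ≤ 1 / 8 :=
    ⟨min ε (1 / 8), by positivity, min_le_left _ _, min_le_right _ _⟩
  obtain ⟨l0, h⟩ := interp (1 / 2 + e / 2) (1 - e / 2) (by linarith) (by linarith) (by linarith)
  refine ⟨max (2 * l0) (12 / e), fun d hd => ?_⟩
  have hd1 : 2 * l0 ≤ d := (le_max_left _ _).trans hd
  have hd2 : 12 ≤ d * e := by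
    have := (le_max_right _ _).trans hd
    rwa [div_le_iff₀ he0] at this
  have hd0 : 0 < d := by
    by_contra hneg
    nlinarith [not_lt.1 hneg]
  obtain ⟨Q, c, F, hF, -, δ, hδ, hv⟩ := h (d / 2) (by linarith) ∅
  have hS := hF.selberg
  rw [mul_div_cancel₀ _ (two_ne_zero)] at hS
  refine ⟨_, F, hS, hF.diff, ?_⟩
  rintro ⟨K, hK⟩
  have hK0 : 0 ≤ K := by
    have := hK 0
    simp only [abs_zero, add_zero, Real.one_rpow, mul_one] at this
    exact (norm_nonneg _).trans this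
  have hx : 0 ≤ (1 / 4 - e) * d := by nlinarith
  obtain ⟨K', hK'⟩ := hF.convex (e := (1 / 4 - e) * d) (K := K) hx (fun t => (hK t).trans
    (mul_le_mul_of_nonneg_left (Real.rpow_le_rpow_of_exponent_le (by linarith [abs_nonneg t])
      (by nlinarith)) hK0))
  obtain ⟨n, hn⟩ := exists_nat_gt (max 1 (|K'| * 2 ^ ((1 / 4 - e) * d) / δ))
  have hn1 : (1 : ℝ) < n := (le_max_left _ _).trans_lt hn
  have hn2 : |K'| * 2 ^ ((1 / 4 - e) * d) < n * δ := by
    have := (le_max_right _ _).trans_lt hn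
    rwa [div_lt_iff₀ hδ] at this
  have h1 := hv n (by exact_mod_cast hn1.le) (Set.notMem_empty n)
  have h2 := hK' (((1 / 2 + e / 2 : ℝ) : ℂ) + n * Complex.I) (by simp; linarith)
    (by simp; linarith)
  have h3 : (((1 / 2 + e / 2 : ℝ) : ℂ) + n * Complex.I).im = n := by simp
  rw [h3, abs_of_pos (by linarith : (0 : ℝ) < n)] at h2
  have h4 : (1 + (n : ℝ)) ^ ((1 / 4 - e) * d) ≤
      2 ^ ((1 / 4 - e) * d) * (n : ℝ) ^ ((1 / 4 - e) * d) := by
    rw [← Real.mul_rpow (by norm_num) (by linarith)]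
    exact Real.rpow_le_rpow (by linarith) (by linarith) hx
  have h5 : (n : ℝ) ^ ((1 / 4 - e) * d) * n ≤
      (n : ℝ) ^ ((1 - e / 2 - (1 / 2 + e / 2)) * (d / 2) - 5) := by
    rw [← Real.rpow_add_one (by linarith)]
    exact Real.rpow_le_rpow_of_exponent_le hn1.le (by nlinarith)
  have h6 : 0 < (n : ℝ) ^ ((1 / 4 - e) * d) := by positivity
  have h7 : K' * (1 + (n : ℝ)) ^ ((1 / 4 - e) * d) ≤
      |K'| * (2 ^ ((1 / 4 - e) * d) * (n : ℝ) ^ ((1 / 4 - e) * d)) :=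
    mul_le_mul (le_abs_self _) h4 (by positivity) (abs_nonneg _)
  have h8 := mul_le_mul_of_nonneg_left h5 hδ.le
  nlinarith

end Pool.Agent.Results.MP_4e5e8a_nt.ASelbergClass
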